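import Pool.Agent.L5helper74.RJ.Surf

/-!
# Random metrics: the joint law of finitely many levels has a density

Let `(M, g)` be a closed surface with a continuous Riemannian metric and isothermal charts (every
smooth metric on a surface has such charts) and let `φ` be a random continuous function on `M` whose
law `P` is quasi-invariant in a dense set of directions `h`: the law of `φ + t h` is absolutely
continuous with respect to the law of `φ`, for every real `t`. Examples are the Gaussian random
functions `∑ c_k ξ_k f_k`, where the `ξ_k` are independent and normal, the `f_k` are smooth functions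
with dense linear span and the `c_k > 0` decrease fast; then `φ` is almost surely smooth. Let
`x 0 ≤ x 1 ≤ ...` be the unfolded levels of the metric `exp φ · g`: the eigenvalues of the Laplacian
times `area / (4 π)`.

Each level `x k` is either zero for all `φ` or positive for all `φ` (if `M` is connected, all levels
but `x 0` are positive), and for every finite set of positive levels the joint law has a density: it
is absolutely continuous with respect to the Lebesgue measure, like that of the eigenvalues of a
matrix of the GOE. The same holds for the conditional law under any event, for instance under the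
event that the metric `exp φ · g` has negative curvature, if its probability is positive. In
particular, almost surely the positive levels are simple, and they are algebraically independent
over the rational numbers.

The main point is that almost surely the constant function and the squares of the eigenfunctions
are linearly independent. For generic metrics in the sense of Baire this is a theorem of the
starting library. Here a relation which holds with positive probability holds, almost surely, at a
sequence of points on every line in a countable dense set of directions which tends to the given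
point, and its derivative along oscillating directions leads to a contradiction.
-/

set_option autoImplicit false

open Set Filter Topology MeasureTheory
open scoped Real
open Pool.Agent.Y262.QE

noncomputable section

namespace Pool.Agent.L5helper74.Old.JointDensity

/-- `u 0, u 1, ...` is an orthonormal basis of `L² (μ)` which consists of eigenfunctions of the
Laplacian of the surface `D` with the area `μ`; the eigenvalues `lam 0 ≤ lam 1 ≤ ...` are ordered -/
structure IsEigenbasis {M : Type} [MeasurableSpace M] (D : Data M) (μ : Measure M)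
    (u : ℕ → M → ℝ) (lam : ℕ → ℝ) : Prop where
  eig : ∀ j, D.IsEig μ (lam j) (u j)
  mono : Monotone lam
  orth : ∀ i j, ∫ x, u i x * u j x ∂μ = if i = j then 1 else 0
  total : ∀ f : M → ℝ, MemLp f 2 μ → (∀ j, ∫ x, f x * u j x ∂μ = 0) → f =ᵐ[μ] 0

/-- the surface with the metric `exp φ · g` -/
def surf {M : Type} [TopologicalSpace M] (D : Data M) (φ : C(M, ℝ)) : Data M :=
  D.conf fun x => Real.exp (φ x)

/-- the area of the metric `exp φ · g` -/
def area {M : Type} [TopologicalSpace M] [MeasurableSpace M] (μ : Measure M) (φ : C(M, ℝ)) :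
    Measure M :=
  wm μ fun x => Real.exp (φ x)

/-- all the charts of the surface are isothermal: in the chart `i` the metric at `z` is
`‖D.A i z v‖ ²`, and it is a multiple of the flat metric `‖v‖ ²` -/
def Isothermal {M : Type} (D : Data M) : Prop :=
  ∀ i, ∀ z ∈ D.T i, ∃ c : ℝ, ∀ v, ‖D.A i z v‖ = c * ‖v‖

/-- `x` is the sequence of the unfolded levels of the metric `exp φ · g`: the eigenvalues, listed
with multiplicity, times the total area divided by `4 π` -/
def IsUnfolded {M : Type} [TopologicalSpace M] [MeasurableSpace M] (D : Data M) (μ : Measure M)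
    (φ : C(M, ℝ)) (x : ℕ → ℝ) : Prop :=
  ∃ (u : ℕ → M → ℝ) (lam : ℕ → ℝ), IsEigenbasis (surf D φ) (area μ φ) u lam ∧
    ∀ k, x k = (area μ φ).real univ / (4 * π) * lam k

/-- the law `P` is quasi-invariant in the direction `h` -/
def QuasiInvariant {M : Type} [TopologicalSpace M] [MeasurableSpace C(M, ℝ)]
    (P : Measure C(M, ℝ)) (h : C(M, ℝ)) : Prop :=
  ∀ t : ℝ, P.map (fun φ => φ + t • h) ≪ P

theorem result (M : Type) [MetricSpace M] [CompactSpace M] [MeasurableSpace M] [BorelSpace M]
    [Nonempty M] (μ : Measure M) (D : Data M) (hD : D.IsSurf μ) (hiso : Isothermal D)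
    [MeasurableSpace C(M, ℝ)] [BorelSpace C(M, ℝ)] (P : Measure C(M, ℝ)) [IsProbabilityMeasure P]
    (hP : Dense {h | QuasiInvariant P h}) :
    (∀ φ : C(M, ℝ), (surf D φ).IsSurf (area μ φ) ∧ ∃! x, IsUnfolded D μ φ x) ∧
    ∀ x : C(M, ℝ) → ℕ → ℝ, (∀ φ, IsUnfolded D μ φ (x φ)) →
      (∀ φ, Tendsto (fun T : ℝ => ({k : ℕ | x φ k ≤ T}.ncard : ℝ) / T) atTop (𝓝 1)) ∧
      (∀ k, (∀ φ, x φ k = 0) ∨ ∀ φ, 0 < x φ k) ∧
      ∀ (n : ℕ) (p : Fin n → ℕ), Function.Injective p → (∀ l φ, 0 < x φ (p l)) →
        Measurable (fun φ l => x φ (p l)) ∧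
        P.map (fun φ l => x φ (p l)) ≪ (volume : Measure (Fin n → ℝ)) := by
  have hbr : ∀ {φ : C(M, ℝ)} {x : ℕ → ℝ}, IsUnfolded D μ φ x →
      Pool.Agent.Results.MP_a825e8_mp.SurfacesLimitStatistics.IsUnfolded D μ φ x := by
    rintro φ x ⟨u, lam, hu, hx⟩
    exact ⟨u, lam, ⟨hu.eig, hu.mono, hu.orth, hu.total⟩, hx⟩
  have hbr' : ∀ {φ : C(M, ℝ)} {x : ℕ → ℝ},
      Pool.Agent.Results.MP_a825e8_mp.SurfacesLimitStatistics.IsUnfolded D μ φ x →
      IsUnfolded D μ φ x := by
    rintro φ x ⟨u, lam, hu, hx⟩
    exact ⟨u, lam, ⟨hu.eig, hu.mono, hu.orth, hu.total⟩, hx⟩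
  obtain ⟨E, hEc, hpos, hdich, hE, hnull⟩ :=
    Pool.Agent.L5helper74.RJ.ptop3 μ D hD hiso P hP
  have harea : ∀ φ : C(M, ℝ), (area μ φ).real univ = ∫ x, Real.exp (φ x) ∂μ := by
    intro φ
    have hm : Measurable fun x => Real.exp (φ x) :=
      (Real.continuous_exp.comp φ.continuous).measurable
    have h5 : (area μ φ).real univ = ∫ x, (1 : ℝ) ∂(wm μ fun x => Real.exp (φ x)) := by
      simp [area]
    rw [h5, integral_wm μ _ hm fun x => (Real.exp_pos _).le]
    simp
  refine ⟨fun φ => ?_, fun x hx => ?_⟩
  · obtain ⟨h1, y, h2, h3, h4⟩ := Pool.Agent.L5helper74.RM.basic M μ D hD φ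
    exact ⟨h1, y, hbr' h2, fun z hz => h4 z (hbr hz)⟩
  have hxE : ∀ φ k, x φ k = (4 * π)⁻¹ * ((∫ y, Real.exp (φ y) ∂μ) * E k φ) := by
    intro φ k
    obtain ⟨u, lam, hu, hxk⟩ := hx φ
    rw [hxk, harea, hE φ u lam ⟨hu.eig, hu.mono, hu.orth, hu.total⟩ k]
    ring
  have h4 : (0 : ℝ) < (4 * π)⁻¹ := by
    have := Real.pi_pos
    positivity
  have hsign : ∀ φ k, 0 < x φ k ↔ 0 < E k φ := by
    intro φ k
    rw [hxE]
    constructor
    · intro h
      have h5 := (mul_pos_iff_of_pos_left h4).1 h
      exact (mul_pos_iff_of_pos_left (hpos φ)).1 h5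
    · intro h
      exact mul_pos h4 (mul_pos (hpos φ) h)
  have hcont : ∀ k, Continuous fun φ => x φ k := by
    intro k
    simp only [hxE]
    refine continuous_const.mul (Continuous.mul ?_ (hEc k))
    haveI := (tFin M μ D hD).1
    exact (Pool.Agent.Y689.QR.int_cont μ).comp Pool.Agent.Y689.QR.exp_cont
  refine ⟨fun φ => ?_, fun k => ?_, fun n p hp hp0 => ?_⟩
  · obtain ⟨h1, y, h2, h3, h5⟩ := Pool.Agent.L5helper74.RM.basic M μ D hD φ
    rw [h5 (x φ) (hbr (hx φ))]
    exact h3
  · rcases hdich k with h | h
    · exact Or.inl fun φ => by rw [hxE, h, mul_zero, mul_zero]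
    · exact Or.inr fun φ => (hsign φ k).2 (h φ)
  · have hm : Measurable (fun (φ : C(M, ℝ)) l => x φ (p l)) :=
      measurable_pi_lambda _ fun l => (hcont (p l)).measurable
    refine ⟨hm, Measure.AbsolutelyContinuous.mk fun N hNm hN => ?_⟩
    rw [Measure.map_apply hm hNm]
    refine measure_eq_zero_iff_ae_notMem.2 ?_
    have hN' : volume ((fun y : Fin n → ℝ => (4 * π)⁻¹ • y) ⁻¹' N) = 0 := by
      rw [Measure.addHaar_preimage_smul _ h4.ne', hN, mul_zero]
    filter_upwards [hnull n _ hN' p hp fun l φ => (hsign φ (p l)).1 (hp0 l φ)] with φ hφ hmem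
    refine hφ ?_
    rw [mem_preimage] at hmem ⊢
    convert hmem using 1
    funext l
    rw [hxE]
    rfl

end Pool.Agent.L5helper74.Old.JointDensity
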